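import Pool.Agent.N906.SZ.Stm

/-!
# SZ/UPA: the upper bound, divisors with small modulus (written by helper50)
-/

set_option autoImplicit false

namespace Pool.Agent.N50.SZ

open Finset Filter Topology Pool.Agent.N906.SZ

/-- the choice of `u` -/
theorem num {κ ε u₀ : ℝ} (hκ : 0 < κ) (hε : 0 < ε) (hu₀ : 0 < u₀) :
    ∀ᶠ x : ℝ in atTop, ∃ u : ℝ, 0 < u ∧ u < u₀ ∧
      u * κ * x + (1 + ε) * 2 / (u * Real.log (1 / u)) ≤
        (1 + ε / 2) * √(16 * κ * x / Real.log x) := by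
  filter_upwards [Real.tendsto_log_atTop.eventually_ge_atTop (4 / κ),
    eventually_gt_atTop (4 / (κ * u₀ ^ 2)), Real.tendsto_log_atTop.eventually_ge_atTop 1,
    eventually_ge_atTop (1 : ℝ)] with x h1 h2 h3 h4
  have hp1 : 0 < 4 / (κ * u₀ ^ 2) := by positivity
  have hx0 : 0 < x := by linarith
  obtain ⟨l, hl⟩ : ∃ l : ℝ, l = Real.log x := ⟨_, rfl⟩
  rw [← hl] at h1 h3 ⊢
  have hl0 : 0 < l := by linarith
  have hκl : 4 ≤ κ * l := by
    rw [div_le_iff₀ hκ] at h1; linarith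
  have hD : 0 < κ * x * l := by positivity
  obtain ⟨u, hu⟩ : ∃ u : ℝ, u = √(4 / (κ * x * l)) := ⟨_, rfl⟩
  have hu0 : 0 < u := by rw [hu]; exact Real.sqrt_pos.2 (by positivity)
  have hu2 : u ^ 2 = 4 / (κ * x * l) := by rw [hu]; exact Real.sq_sqrt (by positivity)
  have hu2' : u ^ 2 * (κ * x * l) = 4 := by rw [hu2]; field_simp
  refine ⟨u, hu0, ?_, ?_⟩
  · rw [hu, Real.sqrt_lt' hu₀, div_lt_iff₀ hD]
    rw [div_lt_iff₀ (by positivity)] at h2
    have h5 : x * (κ * u₀ ^ 2) * 1 ≤ x * (κ * u₀ ^ 2) * l :=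
      mul_le_mul_of_nonneg_left h3 (by positivity)
    nlinarith
  · obtain ⟨a, ha⟩ : ∃ a : ℝ, a = u * κ * x := ⟨_, rfl⟩
    have ha0 : 0 < a := by rw [ha]; positivity
    have hS : √(16 * κ * x / l) = 2 * a := by
      rw [show 16 * κ * x / l = (2 * a) ^ 2 by
        rw [ha, mul_pow, mul_pow, mul_pow, hu2]; field_simp; ring]
      exact Real.sqrt_sq (by positivity)
    have hlog : l / 2 ≤ Real.log (1 / u) := by
      have h6 : x ≤ (1 / u) ^ 2 := by
        rw [div_pow, one_pow, le_div_iff₀ (by positivity), hu2, mul_div_assoc', div_le_one hD]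
        nlinarith
      have h7 := Real.log_le_log hx0 h6
      rw [Real.log_pow, ← hl] at h7
      push_cast at h7
      linarith
    have h8 : 2 / (u * Real.log (1 / u)) ≤ a := by
      have h9 : 0 < Real.log (1 / u) := by linarith
      rw [div_le_iff₀ (by positivity)]
      calc (2 : ℝ) = a * (u * (l / 2)) := by rw [ha]; nlinarith
        _ ≤ a * (u * Real.log (1 / u)) := by
            apply mul_le_mul_of_nonneg_left _ ha0.le
            exact mul_le_mul_of_nonneg_left hlog hu0.le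
    rw [hS, ← ha, mul_div_assoc]
    nlinarith

/-- a constant is smaller than the second term -/
theorem cst {κ η A : ℝ} (hκ : 0 < κ) (hη : 0 < η) :
    ∀ᶠ x : ℝ in atTop, A ≤ Real.exp (η * √(16 * κ * x / Real.log x)) := by
  have hc : (0 : ℝ) < 16 * κ * η ^ 2 / (|A| + 1) ^ 2 := by positivity
  have e1 := (Real.isLittleO_log_id_atTop).bound hc
  filter_upwards [e1, eventually_ge_atTop (2 : ℝ),
    Real.tendsto_log_atTop.eventually_ge_atTop 1] with x h1 h3 h4
  have hx0 : 0 < x := by linarith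
  have hl0 : 0 < Real.log x := by linarith
  rw [Real.norm_of_nonneg hl0.le, id, Real.norm_of_nonneg hx0.le] at h1
  have h6 : (|A| + 1) / η ≤ √(16 * κ * x / Real.log x) := by
    apply Real.le_sqrt_of_sq_le
    rw [le_div_iff₀ hl0, div_pow]
    rw [div_mul_eq_mul_div, div_le_iff₀ (by positivity)]
    calc (|A| + 1) ^ 2 * Real.log x ≤ (|A| + 1) ^ 2 * (16 * κ * η ^ 2 / (|A| + 1) ^ 2 * x) :=
          mul_le_mul_of_nonneg_left h1 (by positivity)
      _ = 16 * κ * x * η ^ 2 := by field_simp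
  rw [div_le_iff₀ hη] at h6
  have h7 := Real.add_one_le_exp (η * √(16 * κ * x / Real.log x))
  have h8 := le_abs_self A
  linarith

theorem rd_pos (n : ℕ) : 1 ≤ rd n := by
  unfold rd
  refine Nat.one_le_iff_ne_zero.2 (Finset.prod_ne_zero_iff.2 fun p hp => ?_)
  exact (Nat.prime_of_mem_primeFactors (Finset.mem_filter.1 hp).1).ne_zero

theorem rd_le {n : ℕ} (hn : 1 ≤ n) : rd n ≤ n := by
  unfold rd
  apply Nat.le_of_dvd (by omega)
  refine dvd_trans (Finset.prod_dvd_prod_of_subset _ _ _ (Finset.filter_subset _ _)) ?_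
  exact Nat.prod_primeFactors_dvd n

theorem upa (h1 : S_CNT) (h2 : S_GENU) : S_UPA := by
  classical
  intro lam ε hlam hlam6 hε
  obtain ⟨C, hC, hcnt⟩ := h1
  obtain ⟨u₀, hu₀, hu₀2, hgen⟩ := h2 (ε / 2) (half_pos hε)
  have hκ : 0 < 6 * lam := by positivity
  -- the fixed u
  obtain ⟨u₁, hu₁⟩ : ∃ u₁ : ℝ, u₁ = u₀ / 2 := ⟨_, rfl⟩
  have hu₁0 : 0 < u₁ := by rw [hu₁]; positivity
  have hu₁1 : u₁ < u₀ := by rw [hu₁]; linarith
  obtain ⟨G₁, hG₁⟩ : ∃ G₁ : ℝ, G₁ = Real.exp ((1 + ε / 2) * 2 / (u₁ * Real.log (1 / u₁))) :=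
    ⟨_, rfl⟩
  have hG₁0 : 0 < G₁ := by rw [hG₁]; exact Real.exp_pos _
  obtain ⟨A, hA⟩ : ∃ A : ℝ, A = C * (62 * Real.exp 1) + C * (4 * G₁) := ⟨_, rfl⟩
  have hev := (num hκ (half_pos hε) hu₀).and ((cst (A := A) hκ (show 0 < ε / 2 by positivity)).and
    (eventually_ge_atTop (2 : ℝ)))
  obtain ⟨L₀, hL₀⟩ := eventually_atTop.1 hev
  refine ⟨max (Real.exp L₀) 4, lt_max_of_lt_right (by norm_num), ?_⟩
  intro X Y R F hX hY hYX hR hRY hF
  have hX4 : 4 ≤ X := (le_max_right _ _).trans hX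
  have hX0 : 0 < X := by linarith
  obtain ⟨L, hL⟩ : ∃ L : ℝ, L = Real.log X := ⟨_, rfl⟩
  have hLL : L₀ ≤ L := by
    rw [hL, Real.le_log_iff_exp_le hX0]
    exact (le_max_left _ _).trans hX
  obtain ⟨⟨u, hu0, huu, hunum⟩, hAs, hL2⟩ := hL₀ L hLL
  rw [← hL]
  have hS16 : 16 * (6 * lam) * L = 96 * lam * L := by ring
  rw [hS16] at hunum hAs
  obtain ⟨S, hS⟩ : ∃ S : ℝ, S = √(96 * lam * L / Real.log L) := ⟨_, rfl⟩
  rw [← hS] at hunum hAs ⊢
  have hS0 : 0 ≤ S := by rw [hS]; exact Real.sqrt_nonneg _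
  have hu1 : u < 1 := by linarith
  have hY0 : 0 < Y := by linarith
  obtain ⟨T, hT⟩ : ∃ T : ℝ, T = (Y / 2) ^ lam := ⟨_, rfl⟩
  have hT0 : 0 < T := by rw [hT]; positivity
  -- the divisors
  have hn' : ∀ x : ℤ × ℤ, ∃ n : ℕ, x ∈ F → 1 ≤ n ∧ (Y / 2) ^ lam ≤ n ∧ (n : ℝ) ≤ R ∧
      Cn n x.1 x.2 := by
    intro x
    by_cases hx : x ∈ F
    · obtain ⟨n, hn⟩ := (hF x hx).2.2.2
      exact ⟨n, fun _ => hn⟩
    · exact ⟨0, fun h => absurd h hx⟩
  choose nn hnn using hn'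
  have hD : ∀ n ∈ F.image nn, 1 ≤ n ∧ T ≤ n ∧ (n : ℝ) ≤ R := by
    intro n hn
    obtain ⟨x, hx, rfl⟩ := mem_image.1 hn
    obtain ⟨q1, q2, q3, -⟩ := hnn x hx
    exact ⟨q1, by rw [hT]; exact q2, q3⟩
  have hcard : (F.card : ℝ) ≤ ∑ n ∈ F.image nn,
      (C * cc n * (Y ^ (5 / 6 : ℝ) / (n * rd n : ℕ) + X ^ 2)) := by
    rw [card_eq_sum_card_image nn F]
    push_cast
    refine Finset.sum_le_sum fun n hn => ?_
    obtain ⟨q1, q2, q3⟩ := hD n hn
    have := hcnt X Y n (by linarith) hY hYX q1 (by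
      have r1 : ((n * rd n : ℕ) : ℝ) ≤ R ^ 2 := by
        have r2 : (rd n : ℝ) ≤ n := by exact_mod_cast rd_le q1
        push_cast
        have r3 : (0 : ℝ) ≤ n := Nat.cast_nonneg _
        have r4 : (0 : ℝ) ≤ rd n := Nat.cast_nonneg _
        nlinarith
      calc ((n * rd n : ℕ) : ℝ) ^ 3 ≤ (R ^ 2) ^ 3 := pow_le_pow_left₀ (Nat.cast_nonneg _) r1 3
        _ = R ^ 6 := by ring
        _ ≤ Y := hRY) {x ∈ F | nn x = n} (by
      intro x hx
      rw [mem_filter] at hx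
      obtain ⟨hxF, rfl⟩ := hx
      exact ⟨(hF x hxF).1, (hF x hxF).2.1, (hF x hxF).2.2.1, (hnn x hxF).2.2.2⟩)
    push_cast at this ⊢
    exact this
  -- the first part
  have hYp : 0 < Y ^ (5 / 6 : ℝ) := by positivity
  have p1 : ∑ n ∈ F.image nn, (cc n : ℝ) * (Y ^ (5 / 6 : ℝ) / (n * rd n : ℕ)) ≤
      Y ^ (5 / 6 : ℝ) * T ^ (u - 1) *
        Real.exp ((1 + ε / 2) * 2 / (u * Real.log (1 / u))) := by
    have g := hgen u hu0 huu (F.image nn) (fun n hn => (hD n hn).1)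
    refine le_trans ?_ (mul_le_mul_of_nonneg_left g (by positivity))
    rw [Finset.mul_sum]
    refine Finset.sum_le_sum fun n hn => ?_
    obtain ⟨q1, q2, q3⟩ := hD n hn
    have hn0 : (0 : ℝ) < n := by exact_mod_cast q1
    have hr0 : (0 : ℝ) < rd n := by exact_mod_cast rd_pos n
    have k1 : (n : ℝ)⁻¹ ≤ T ^ (u - 1) * (n : ℝ) ^ (-u) := by
      have k2 : (n : ℝ)⁻¹ = (n : ℝ) ^ (u - 1) * (n : ℝ) ^ (-u) := by
        rw [← Real.rpow_add hn0, show u - 1 + -u = -1 by ring, Real.rpow_neg_one]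
      rw [k2]
      apply mul_le_mul_of_nonneg_right _ (by positivity)
      exact Real.rpow_le_rpow_of_nonpos hT0 q2 (by linarith)
    calc (cc n : ℝ) * (Y ^ (5 / 6 : ℝ) / (n * rd n : ℕ))
        = Y ^ (5 / 6 : ℝ) * ((cc n : ℝ) / rd n) * (n : ℝ)⁻¹ := by
          push_cast; field_simp
      _ ≤ Y ^ (5 / 6 : ℝ) * ((cc n : ℝ) / rd n) * (T ^ (u - 1) * (n : ℝ) ^ (-u)) :=
          mul_le_mul_of_nonneg_left k1 (by positivity)
      _ = _ := by ring
  -- the second part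
  have p2 : ∑ n ∈ F.image nn, (cc n : ℝ) ≤ R ^ (1 + u₁) * G₁ := by
    have g := hgen u₁ hu₁0 hu₁1 (F.image nn) (fun n hn => (hD n hn).1)
    rw [← hG₁] at g
    refine le_trans ?_ (mul_le_mul_of_nonneg_left g (by positivity))
    rw [Finset.mul_sum]
    refine Finset.sum_le_sum fun n hn => ?_
    obtain ⟨q1, q2, q3⟩ := hD n hn
    have hn0 : (0 : ℝ) < n := by exact_mod_cast q1
    have hr0 : (0 : ℝ) < rd n := by exact_mod_cast rd_pos n
    have hrn : (rd n : ℝ) ≤ n := by exact_mod_cast rd_le q1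
    have k1 : (1 : ℝ) ≤ R ^ (1 + u₁) * ((n : ℝ) ^ (-u₁) / rd n) := by
      rw [mul_div_assoc', le_div_iff₀ hr0, one_mul]
      calc (rd n : ℝ) ≤ n := hrn
        _ = (n : ℝ) ^ (1 + u₁) * (n : ℝ) ^ (-u₁) := by
            rw [← Real.rpow_add hn0, show 1 + u₁ + -u₁ = 1 by ring, Real.rpow_one]
        _ ≤ _ := by
            apply mul_le_mul_of_nonneg_right _ (by positivity)
            exact Real.rpow_le_rpow hn0.le q3 (by linarith)
    calc (cc n : ℝ) = cc n * 1 := (mul_one _).symm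
      _ ≤ cc n * (R ^ (1 + u₁) * ((n : ℝ) ^ (-u₁) / rd n)) :=
          mul_le_mul_of_nonneg_left k1 (Nat.cast_nonneg _)
      _ = _ := by ring
  have hcard2 : (F.card : ℝ) ≤ C * (Y ^ (5 / 6 : ℝ) * T ^ (u - 1) *
        Real.exp ((1 + ε / 2) * 2 / (u * Real.log (1 / u)))) +
        C * X ^ 2 * (R ^ (1 + u₁) * G₁) := by
    refine hcard.trans ?_
    have e1 : ∑ n ∈ F.image nn, (C * cc n * (Y ^ (5 / 6 : ℝ) / (n * rd n : ℕ) + X ^ 2)) =
        C * (∑ n ∈ F.image nn, (cc n : ℝ) * (Y ^ (5 / 6 : ℝ) / (n * rd n : ℕ))) +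
        C * X ^ 2 * ∑ n ∈ F.image nn, (cc n : ℝ) := by
      rw [Finset.mul_sum, Finset.mul_sum, ← Finset.sum_add_distrib]
      exact Finset.sum_congr rfl fun n _ => by ring
    rw [e1]
    exact add_le_add (mul_le_mul_of_nonneg_left p1 hC.le)
      (mul_le_mul_of_nonneg_left p2 (by positivity))
  -- the sizes
  have hXe : X = Real.exp L := by rw [hL, Real.exp_log hX0]
  have hR2 : R ≤ 2 * X := by
    have : R ^ 6 ≤ (2 * X) ^ 6 := by
      calc R ^ 6 ≤ Y := hRY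
        _ ≤ 31 * X ^ 6 := hYX
        _ ≤ (2 * X) ^ 6 := by nlinarith [pow_pos hX0 6]
    exact le_of_pow_le_pow_left₀ (by norm_num) (by positivity) this
  have s2 : X ^ 2 * (R ^ (1 + u₁) * G₁) ≤ 4 * G₁ * Real.exp ((5 - 6 * lam) * L) := by
    have k1 : R ^ (1 + u₁) ≤ (2 * X) ^ (2 : ℝ) := by
      calc R ^ (1 + u₁) ≤ R ^ (2 : ℝ) := Real.rpow_le_rpow_of_exponent_le hR (by linarith)
        _ ≤ _ := Real.rpow_le_rpow (by linarith) hR2 (by norm_num)
    rw [Real.rpow_two] at k1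
    have k2 : X ^ 4 ≤ Real.exp ((5 - 6 * lam) * L) := by
      rw [hXe, ← Real.exp_nat_mul]
      apply Real.exp_le_exp.2
      push_cast
      nlinarith
    calc X ^ 2 * (R ^ (1 + u₁) * G₁) ≤ X ^ 2 * ((2 * X) ^ 2 * G₁) := by
          apply mul_le_mul_of_nonneg_left _ (by positivity)
          exact mul_le_mul_of_nonneg_right k1 hG₁0.le
      _ = 4 * G₁ * X ^ 4 := by ring
      _ ≤ _ := mul_le_mul_of_nonneg_left k2 (by positivity)
  have s1 : Y ^ (5 / 6 : ℝ) * T ^ (u - 1) ≤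
      (62 * Real.exp 1) * Real.exp ((5 - 6 * lam) * L + u * (6 * lam) * L) := by
    have hY2 : 0 < Y / 2 := by positivity
    have k1 : T ^ (u - 1) = (Y / 2) ^ (lam * u) * (Y / 2) ^ (-lam) := by
      rw [hT, ← Real.rpow_mul hY2.le, ← Real.rpow_add hY2]
      congr 1; ring
    have k2 : (Y / 2) ^ (-lam) = Y ^ (-lam) * 2 ^ lam := by
      rw [Real.div_rpow hY0.le (by norm_num), Real.rpow_neg (by norm_num : (0 : ℝ) ≤ 2),
        div_inv_eq_mul]
    have k3 : (2 : ℝ) ^ lam ≤ 2 := by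
      calc (2 : ℝ) ^ lam ≤ 2 ^ (1 : ℝ) :=
            Real.rpow_le_rpow_of_exponent_le (by norm_num) (by linarith)
        _ = 2 := Real.rpow_one 2
    have k4 : Y ^ (5 / 6 : ℝ) * Y ^ (-lam) ≤ 31 * Real.exp ((5 - 6 * lam) * L) := by
      rw [← Real.rpow_add hY0]
      calc Y ^ (5 / 6 + -lam) ≤ (31 * X ^ 6) ^ (5 / 6 + -lam) :=
            Real.rpow_le_rpow hY0.le hYX (by linarith)
        _ = 31 ^ (5 / 6 + -lam) * (X ^ 6) ^ (5 / 6 + -lam) :=
            Real.mul_rpow (by norm_num) (by positivity)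
        _ = 31 ^ (5 / 6 + -lam) * Real.exp ((5 - 6 * lam) * L) := by
            congr 1
            rw [hXe, ← Real.exp_nat_mul, ← Real.exp_mul]
            congr 1; push_cast; ring
        _ ≤ 31 * Real.exp ((5 - 6 * lam) * L) := by
            apply mul_le_mul_of_nonneg_right _ (Real.exp_pos _).le
            calc (31 : ℝ) ^ (5 / 6 + -lam) ≤ 31 ^ (1 : ℝ) :=
                  Real.rpow_le_rpow_of_exponent_le (by norm_num) (by linarith)
              _ = 31 := Real.rpow_one 31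
    have k5 : (Y / 2) ^ (lam * u) ≤ Real.exp 1 * Real.exp (u * (6 * lam) * L) := by
      calc (Y / 2) ^ (lam * u) ≤ (16 * X ^ 6) ^ (lam * u) := by
            apply Real.rpow_le_rpow hY2.le _ (by positivity)
            nlinarith [pow_pos hX0 6]
        _ = 16 ^ (lam * u) * (X ^ 6) ^ (lam * u) := Real.mul_rpow (by norm_num) (by positivity)
        _ = 16 ^ (lam * u) * Real.exp (u * (6 * lam) * L) := by
            congr 1
            rw [hXe, ← Real.exp_nat_mul, ← Real.exp_mul]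
            congr 1; push_cast; ring
        _ ≤ Real.exp 1 * Real.exp (u * (6 * lam) * L) := by
            apply mul_le_mul_of_nonneg_right _ (Real.exp_pos _).le
            rw [Real.rpow_def_of_pos (by norm_num)]
            apply Real.exp_le_exp.2
            have : Real.log 16 ≤ 3 := by
              rw [show (16 : ℝ) = 2 ^ 4 by norm_num, Real.log_pow]
              have := Real.log_two_lt_d9
              push_cast
              linarith
            have h5 : lam * u ≤ 1 / 6 * 1 := mul_le_mul hlam6.le hu1.le hu0.le (by norm_num)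
            have h6 : 0 ≤ lam * u := by positivity
            nlinarith
    rw [k1, k2, Real.exp_add]
    calc Y ^ (5 / 6 : ℝ) * ((Y / 2) ^ (lam * u) * (Y ^ (-lam) * 2 ^ lam))
        = (Y ^ (5 / 6 : ℝ) * Y ^ (-lam)) * (Y / 2) ^ (lam * u) * 2 ^ lam := by ring
      _ ≤ (31 * Real.exp ((5 - 6 * lam) * L)) * (Real.exp 1 * Real.exp (u * (6 * lam) * L)) * 2 := by
          apply mul_le_mul _ k3 (by positivity) (by positivity)
          exact mul_le_mul k4 k5 (by positivity) (by positivity)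
      _ = _ := by ring
  -- the end
  have t1 : Y ^ (5 / 6 : ℝ) * T ^ (u - 1) *
        Real.exp ((1 + ε / 2) * 2 / (u * Real.log (1 / u))) ≤
      (62 * Real.exp 1) * (Real.exp ((5 - 6 * lam) * L) * Real.exp ((1 + ε / 2) * S)) := by
    refine (mul_le_mul_of_nonneg_right s1 (Real.exp_pos _).le).trans ?_
    rw [mul_assoc]
    apply mul_le_mul_of_nonneg_left _ (by positivity)
    rw [← Real.exp_add, ← Real.exp_add]
    apply Real.exp_le_exp.2
    nlinarith
  have t2 : X ^ 2 * (R ^ (1 + u₁) * G₁) ≤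
      4 * G₁ * (Real.exp ((5 - 6 * lam) * L) * Real.exp ((1 + ε / 2) * S)) := by
    refine s2.trans ?_
    apply mul_le_mul_of_nonneg_left _ (by positivity)
    have : 1 ≤ Real.exp ((1 + ε / 2) * S) := Real.one_le_exp (by positivity)
    nlinarith [Real.exp_pos ((5 - 6 * lam) * L)]
  calc (F.card : ℝ) ≤ _ := hcard2
    _ ≤ C * ((62 * Real.exp 1) * (Real.exp ((5 - 6 * lam) * L) * Real.exp ((1 + ε / 2) * S))) +
        C * (4 * G₁ * (Real.exp ((5 - 6 * lam) * L) * Real.exp ((1 + ε / 2) * S))) := by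
        rw [mul_assoc C (X ^ 2)]
        exact add_le_add (mul_le_mul_of_nonneg_left t1 hC.le)
          (mul_le_mul_of_nonneg_left t2 hC.le)
    _ = A * (Real.exp ((5 - 6 * lam) * L) * Real.exp ((1 + ε / 2) * S)) := by rw [hA]; ring
    _ ≤ Real.exp (ε / 2 * S) * (Real.exp ((5 - 6 * lam) * L) * Real.exp ((1 + ε / 2) * S)) :=
        mul_le_mul_of_nonneg_right hAs (by positivity)
    _ = Real.exp ((5 - 6 * lam) * L + (1 + ε) * S) := by
        rw [← Real.exp_add, ← Real.exp_add]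
        congr 1; ring

end Pool.Agent.N50.SZ
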