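import Mathlib

/-! The circle as a manifold modelled on the half line. -/

set_option autoImplicit false

open Set Filter Topology Function
open scoped Manifold ContDiff

namespace Pool.Agent.N50.CircleHalf


/-- the angle coordinate around `z₀`, a number in `(4-π, 4+π]` -/
noncomputable def ang (z₀ w : Circle) : ℝ := Complex.arg ((w / z₀ : Circle) : ℂ) + 4

theorem ang_pos (z₀ w : Circle) : 0 ≤ ang z₀ w := by
  unfold ang
  have h1 := Complex.neg_pi_lt_arg ((w / z₀ : Circle) : ℂ)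
  have h2 := Real.pi_lt_four
  linarith

/-- the chart around `z₀` -/
noncomputable def chart (z₀ : Circle) : OpenPartialHomeomorph Circle (EuclideanHalfSpace 1) where
  source := {w | ((w / z₀ : Circle) : ℂ) ∈ Complex.slitPlane}
  target := {v : (EuclideanHalfSpace 1) | v.1 0 ∈ Ioo (4 - Real.pi) (4 + Real.pi)}
  toFun := fun w => ⟨WithLp.toLp 2 fun _ => ang z₀ w, ang_pos z₀ w⟩
  invFun := fun v => z₀ * Circle.exp (v.1 0 - 4)
  map_source' := by
    intro w hw
    simp only [mem_ofPred_eq, mem_Ioo] at hw ⊢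
    unfold ang
    have h1 := Complex.neg_pi_lt_arg ((w / z₀ : Circle) : ℂ)
    have h2 := Complex.arg_le_pi ((w / z₀ : Circle) : ℂ)
    have h3 := Complex.slitPlane_arg_ne_pi hw
    have h4 := lt_of_le_of_ne h2 h3
    constructor <;> linarith
  map_target' := by
    intro v hv
    simp only [mem_ofPred_eq, mem_Ioo] at hv ⊢
    rw [mul_div_cancel_left, Circle.coe_exp, Complex.mem_slitPlane_iff_arg]
    refine ⟨?_, Complex.exp_ne_zero _⟩
    rw [Complex.arg_exp_mul_I, toIocMod_eq_self _ |>.2]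
    · intro h
      linarith [hv.2]
    · constructor <;> linarith [hv.1, hv.2, Real.pi_pos]
  left_inv' := by
    intro w hw
    simp only [mem_ofPred_eq] at hw
    simp only [ang, add_sub_cancel_right, Circle.exp_arg]
    rw [mul_div_cancel]
  right_inv' := by
    intro v hv
    simp only [mem_ofPred_eq, mem_Ioo] at hv
    apply Subtype.ext
    ext i
    rw [Subsingleton.elim i 0]
    simp only [ang]
    rw [mul_div_cancel_left, Circle.arg_exp]
    · ring
    · linarith [hv.1]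
    · linarith [hv.2]
  open_source := by
    have h : Continuous (fun w : Circle => ((w / z₀ : Circle) : ℂ)) := by fun_prop
    exact Complex.isOpen_slitPlane.preimage h
  open_target := by
    have h : Continuous (fun v : (EuclideanHalfSpace 1) => v.1 0) := by fun_prop
    exact isOpen_Ioo.preimage h
  continuousOn_toFun := by
    have h1 : ContinuousOn (fun w => ang z₀ w) {w | ((w / z₀ : Circle) : ℂ) ∈ Complex.slitPlane} := by
      unfold ang
      refine ContinuousOn.add ?_ continuousOn_const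
      have h : Continuous (fun w : Circle => ((w / z₀ : Circle) : ℂ)) := by fun_prop
      exact Complex.continuousOn_arg.comp h.continuousOn (fun w hw => hw)
    rw [IsEmbedding.subtypeVal.continuousOn_iff]
    have h2 : ContinuousOn (fun w => fun _ : Fin 1 => ang z₀ w)
        {w | ((w / z₀ : Circle) : ℂ) ∈ Complex.slitPlane} := continuousOn_pi.2 fun _ => h1
    exact (PiLp.continuous_toLp 2 _).comp_continuousOn h2
  continuousOn_invFun := by
    have h : Continuous (fun v : (EuclideanHalfSpace 1) => z₀ * Circle.exp (v.1 0 - 4)) := by fun_prop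
    exact h.continuousOn

theorem mem_chart_source (z₀ : Circle) : z₀ ∈ (chart z₀).source := by
  show ((z₀ / z₀ : Circle) : ℂ) ∈ Complex.slitPlane
  rw [div_self']
  simp

noncomputable instance : ChartedSpace (EuclideanHalfSpace 1) Circle where
  atlas := range chart
  chartAt := chart
  mem_chart_source := mem_chart_source
  chart_mem_atlas z := ⟨z, rfl⟩

/-- the main computation: a map of the circle with a smooth lift is smooth in the charts -/
theorem contDiffOn_charts {k : ℕ∞ω} {Φ : Circle → Circle}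
    (hΦ : ContDiff ℝ k (fun θ : ℝ => ((Φ (Circle.exp θ) : Circle) : ℂ))) (z₀ z₁ : Circle) :
    ContDiffOn ℝ k (fun v => (𝓡∂ 1) (chart z₁ (Φ ((chart z₀).symm ((𝓡∂ 1).symm v)))))
      (range (𝓡∂ 1) ∩ (𝓡∂ 1).symm ⁻¹' {v | v ∈ (chart z₀).target ∧ Φ ((chart z₀).symm v) ∈ (chart z₁).source}) := by
  have hval : ∀ v : EuclideanSpace ℝ (Fin 1), v ∈ range (𝓡∂ 1) → ((𝓡∂ 1).symm v).1 0 = v 0 := by
    intro v hv
    rw [range_modelWithCornersEuclideanHalfSpace] at hv
    rw [modelWithCornersEuclideanHalfSpace_symm_apply]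
    simp only [mem_ofPred_eq] at hv
    simp [hv]
  have hinv : ∀ v : EuclideanSpace ℝ (Fin 1), v ∈ range (𝓡∂ 1) →
      (chart z₀).symm ((𝓡∂ 1).symm v) = Circle.exp (Complex.arg z₀ + (v 0 - 4)) := by
    intro v hv
    show z₀ * Circle.exp (((𝓡∂ 1).symm v).1 0 - 4) = _
    rw [hval v hv, Circle.exp_add, Circle.exp_arg]
  have key : ContDiffOn ℝ k (fun v : EuclideanSpace ℝ (Fin 1) =>
      Complex.arg (((Φ (Circle.exp (Complex.arg z₀ + (v 0 - 4))) : Circle) : ℂ) / (z₁ : ℂ)) + 4)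
      (range (𝓡∂ 1) ∩ (𝓡∂ 1).symm ⁻¹' {v | v ∈ (chart z₀).target ∧ Φ ((chart z₀).symm v) ∈ (chart z₁).source}) := by
    intro v hv
    obtain ⟨hv1, hv2, hv3⟩ := hv
    refine ContDiffAt.contDiffWithinAt ?_
    refine ContDiffAt.add ?_ contDiffAt_const
    have h1 : ContDiff ℝ k (fun v : EuclideanSpace ℝ (Fin 1) => Complex.arg z₀ + (v 0 - 4)) := by
      fun_prop
    have h2 : ContDiff ℝ k (fun v : EuclideanSpace ℝ (Fin 1) =>
        ((Φ (Circle.exp (Complex.arg z₀ + (v 0 - 4))) : Circle) : ℂ) / (z₁ : ℂ)) :=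
      (hΦ.comp h1).div_const _
    have hslit : ((Φ (Circle.exp (Complex.arg z₀ + (v 0 - 4))) : Circle) : ℂ) / (z₁ : ℂ) ∈
        Complex.slitPlane := by
      have h3 : ((Φ ((chart z₀).symm ((𝓡∂ 1).symm v)) / z₁ : Circle) : ℂ) ∈ Complex.slitPlane := hv3
      rw [hinv v hv1] at h3
      simpa using h3
    have h4 : ContDiffAt ℝ k Complex.log (((Φ (Circle.exp (Complex.arg z₀ + (v 0 - 4))) : Circle) : ℂ) / (z₁ : ℂ)) :=
      (Complex.contDiffAt_log hslit).restrict_scalars ℝ
    have h5 : ContDiffAt ℝ k (fun v : EuclideanSpace ℝ (Fin 1) =>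
      (Complex.log (((Φ (Circle.exp (Complex.arg z₀ + (v 0 - 4))) : Circle) : ℂ) / (z₁ : ℂ))).im) v :=
      Complex.imCLM.contDiff.contDiffAt.comp v (ContDiffAt.comp (g := Complex.log) v h4 h2.contDiffAt)
    simpa [Complex.log_im] using h5
  have key2 : ContDiffOn ℝ k (fun v : EuclideanSpace ℝ (Fin 1) => WithLp.toLp 2 (fun _ : Fin 1 =>
      Complex.arg (((Φ (Circle.exp (Complex.arg z₀ + (v 0 - 4))) : Circle) : ℂ) / (z₁ : ℂ)) + 4))
      (range (𝓡∂ 1) ∩ (𝓡∂ 1).symm ⁻¹' {v | v ∈ (chart z₀).target ∧ Φ ((chart z₀).symm v) ∈ (chart z₁).source}) :=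
    contDiffOn_euclidean.2 fun _ => key
  refine key2.congr ?_
  intro v hv
  rw [hinv v hv.1]
  show WithLp.toLp 2 (fun _ : Fin 1 => ang z₁ _) = _
  unfold ang
  rw [Circle.coe_div]

theorem contDiff_coe_exp {k : ℕ∞ω} : ContDiff ℝ k (fun θ : ℝ => ((Circle.exp θ : Circle) : ℂ)) := by
  simp only [Circle.coe_exp]
  have h : ContDiff ℝ k (fun θ : ℝ => ((θ : ℝ) : ℂ) * Complex.I) :=
    Complex.ofRealCLM.contDiff.mul contDiff_const
  exact h.cexp

instance {k : ℕ∞ω} : IsManifold (𝓡∂ 1) k Circle := by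
  apply isManifold_of_contDiffOn
  rintro _ _ ⟨z₀, rfl⟩ ⟨z₁, rfl⟩
  refine (contDiffOn_charts (Φ := id) contDiff_coe_exp z₀ z₁).mono ?_
  rintro v ⟨hv1, hv2⟩
  exact ⟨hv2, hv1.1, hv1.2⟩

theorem continuous_of_exp {Φ : Circle → Circle}
    (hΦ : Continuous (fun θ : ℝ => ((Φ (Circle.exp θ) : Circle) : ℂ))) : Continuous Φ := by
  have h1 : Continuous (fun θ : ℝ => Φ (Circle.exp θ)) :=
    IsEmbedding.subtypeVal.continuous_iff.2 hΦ
  have h2 : IsQuotientMap (Circle.exp : ℝ → Circle) :=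
    isLocalHomeomorph_circleExp.isOpenMap.isQuotientMap Circle.exp.continuous Circle.exp_surjective
  exact h2.continuous_iff.2 h1

theorem contMDiff_of_exp {k : ℕ∞ω} {Φ : Circle → Circle}
    (hΦ : ContDiff ℝ k (fun θ : ℝ => ((Φ (Circle.exp θ) : Circle) : ℂ))) :
    ContMDiff (𝓡∂ 1) (𝓡∂ 1) k Φ := by
  rw [contMDiff_iff]
  refine ⟨continuous_of_exp hΦ.continuous, fun z₀ z₁ => ?_⟩
  refine (contDiffOn_charts hΦ z₀ z₁).mono ?_
  rintro v ⟨hv1, hv2⟩
  rw [extChartAt_target] at hv1
  refine ⟨hv1.2, hv1.1, ?_⟩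
  rw [extChartAt_source] at hv2
  exact hv2

instance : ConnectedSpace Circle :=
  (Circle.exp_surjective).connectedSpace Circle.exp.continuous

end Pool.Agent.N50.CircleHalf
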