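import Mathlib

/-!
# Lifting diffeomorphisms of `[-1, 1]` to the circle

Let `f` be a `C^k` diffeomorphism of `[-1, 1]`.  The map
`(x, y) ↦ (f x, y √((1 - f(x)^2) / (1 - x^2)))` of the circle is of class `C^k`.
-/

set_option autoImplicit false

open MeasureTheory Filter Topology Set Metric

namespace Pool.Agent.N50.Fold

/-- smoothness of parametric integrals with a locally integrable, compactly supported weight -/
theorem contDiff_param {n : ℕ∞} {f : ℝ → ℝ} (hf : LocallyIntegrable f volume) {R : ℝ}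
    (hR : 0 < R) (hfR : ∀ t, R < ‖t‖ → f t = 0) {g : ℝ → ℝ → ℝ}
    (hg : ContDiff ℝ n (fun q : ℝ × ℝ => g q.1 q.2)) :
    ContDiff ℝ n (fun p => ∫ t, f t * g p t) := by
  have hpos : (0 : ℝ) < R := hR
  let χ : ContDiffBump (0 : ℝ) := ⟨R, R + 1, hpos, by linarith⟩
  have hχ1 : ∀ t : ℝ, ‖t‖ ≤ R → χ t = 1 := fun t ht =>
    χ.one_of_mem_closedBall (by rw [mem_closedBall, dist_zero_right]; exact ht)
  have hχ0 : ∀ t : ℝ, R + 1 ≤ ‖t‖ → χ t = 0 := fun t ht =>
    χ.zero_of_le_dist (by rw [dist_zero_right]; exact ht)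
  have hG : ContDiff ℝ n (fun q : ℝ × ℝ => χ q.2 * g q.1 (-q.2)) :=
    (χ.contDiff.comp contDiff_snd).mul (hg.comp (contDiff_fst.prodMk contDiff_snd.neg))
  have h := contDiffOn_convolution_right_with_param_comp (𝕜 := ℝ) (n := n) (μ := volume)
    (ContinuousLinearMap.lsmul ℝ ℝ : ℝ →L[ℝ] ℝ →L[ℝ] ℝ)
    (s := (univ : Set ℝ)) (v := fun _ => (0 : ℝ)) contDiffOn_const (f := f)
    (g := fun (p : ℝ) (z : ℝ) => χ z * g p (-z)) (k := closedBall (0 : ℝ) (R + 1)) isOpen_univ
    (isCompact_closedBall _ _) (fun p x _ hx => by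
      have : R + 1 ≤ ‖x‖ := by
        rw [mem_closedBall, dist_zero_right, not_le] at hx
        exact hx.le
      simp only [hχ0 x this, zero_mul]) hf hG.contDiffOn
  rw [contDiffOn_univ] at h
  have e : (fun p => ∫ t, f t * g p t) =
      fun p => (convolution f (fun z => χ z * g p (-z)) (ContinuousLinearMap.lsmul ℝ ℝ) volume) 0 := by
    funext p
    rw [convolution_def]
    congr 1
    funext t
    by_cases ht : R < ‖t‖
    · rw [hfR t ht]; simp
    · have h1 : χ (0 - t) = 1 := hχ1 _ (by rw [zero_sub, norm_neg]; exact not_lt.1 ht)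
      rw [h1, one_mul, zero_sub, neg_neg]
      rfl
  rw [e]
  exact h

/-- integration over an interval `[0, ε]` of a `C^n` function of two variables -/
theorem contDiff_int {w : ℝ → ℝ} (hw : Continuous w) {ε : ℝ} (hε : 0 < ε)
    {n : ℕ∞} {g : ℝ → ℝ → ℝ} (hg : ContDiff ℝ n (fun q : ℝ × ℝ => g q.1 q.2)) :
    ContDiff ℝ n (fun x => ∫ s in (0 : ℝ)..ε, w s * g x s) := by
  have hli : LocallyIntegrable ((Ioc 0 ε).indicator w) :=
    (hw.locallyIntegrable).indicator measurableSet_Ioc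
  have h1 := contDiff_param (n := n) hli hε (by
      intro t ht
      refine indicator_of_notMem ?_ _
      intro h
      rw [Real.norm_eq_abs, abs_of_pos h.1] at ht
      linarith [h.2]) hg
  have e : (fun x => ∫ s in (0 : ℝ)..ε, w s * g x s) = fun x =>
      ∫ t, ((Ioc 0 ε).indicator w t) * (g x t) := by
    funext x
    rw [intervalIntegral.integral_of_le hε.le, ← integral_indicator measurableSet_Ioc]
    congr 1
    funext s
    by_cases hs : s ∈ Ioc 0 ε
    · simp [indicator_of_mem hs]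
    · simp [indicator_of_notMem hs]
  rw [e]
  exact h1

/-- a function which is continuous at `x` and has near `x`, except at `x`, the derivative `g`, has the
derivative `g x` at `x`, if `g` is continuous at `x` -/
theorem hasDerivAt_of_punctured {f g : ℝ → ℝ} {x : ℝ} {U : Set ℝ} (hU : U ∈ 𝓝 x)
    (f_diff : ∀ y ∈ U, y ≠ x → HasDerivAt f (g y) y) (hf : ContinuousAt f x)
    (hg : ContinuousAt g x) : HasDerivAt f (g x) x := by
  have A : HasDerivWithinAt f (g x) (Ici x) x := by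
    have diff : DifferentiableOn ℝ f (Ioi x ∩ U) := fun y hy =>
      (f_diff y hy.2 (ne_of_gt hy.1)).differentiableAt.differentiableWithinAt
    have hmem : Ioi x ∩ U ∈ 𝓝[>] x := inter_mem self_mem_nhdsWithin (mem_nhdsWithin_of_mem_nhds hU)
    refine hasDerivWithinAt_Ici_of_tendsto_deriv diff hf.continuousWithinAt hmem ?_
    have : Tendsto g (𝓝[>] x) (𝓝 (g x)) := tendsto_inf_left hg
    refine this.congr' (mem_of_superset hmem ?_)
    intro y hy
    exact (f_diff y hy.2 (ne_of_gt hy.1)).deriv.symm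
  have B : HasDerivWithinAt f (g x) (Iic x) x := by
    have diff : DifferentiableOn ℝ f (Iio x ∩ U) := fun y hy =>
      (f_diff y hy.2 (ne_of_lt hy.1)).differentiableAt.differentiableWithinAt
    have hmem : Iio x ∩ U ∈ 𝓝[<] x := inter_mem self_mem_nhdsWithin (mem_nhdsWithin_of_mem_nhds hU)
    refine hasDerivWithinAt_Iic_of_tendsto_deriv diff hf.continuousWithinAt hmem ?_
    have : Tendsto g (𝓝[<] x) (𝓝 (g x)) := tendsto_inf_left hg
    refine this.congr' (mem_of_superset hmem ?_)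
    intro y hy
    exact (f_diff y hy.2 (ne_of_lt hy.1)).deriv.symm
  simpa using B.union A

/-- the interval `[-1, 1]` -/
abbrev J : Set ℝ := Icc (-1 : ℝ) 1

theorem uJ : UniqueDiffOn ℝ J := uniqueDiffOn_Icc (by norm_num)

/-- Hadamard's lemma along a path -/
theorem hadamard (m : ℕ) {F : ℝ → ℝ} (hF : ContDiffOn ℝ (m + 1) F J) (a b : ℝ) {s : ℝ → ℝ}
    (hs : ContDiff ℝ m s) (hmem : ∀ u ∈ Icc (0 : ℝ) 1, ∀ θ, a + b * (u * s θ) ∈ J) :
    ∃ G : ℝ → ℝ, ContDiff ℝ m G ∧ ∀ θ, F (a + b * s θ) - F a = b * s θ * G θ := by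
  have hsq : ∀ φ : ℝ, (Real.sin φ) ^ 2 ∈ Icc (0 : ℝ) 1 := fun φ =>
    ⟨sq_nonneg _, Real.sin_sq_le_one φ⟩
  refine ⟨fun θ => ∫ φ in (0 : ℝ)..(Real.pi / 2), (2 * Real.sin φ * Real.cos φ) *
    derivWithin F J (a + b * ((Real.sin φ) ^ 2 * s θ)), ?_, ?_⟩
  · have hD : ContDiffOn ℝ m (derivWithin F J) J := hF.derivWithin uJ le_rfl
    have hcomp : ContDiff ℝ m (fun q : ℝ × ℝ => derivWithin F J (a + b * ((Real.sin q.2) ^ 2 * s q.1))) := by
      have h1 : ContDiff ℝ m (fun q : ℝ × ℝ => a + b * ((Real.sin q.2) ^ 2 * s q.1)) := by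
        have h2 : ContDiff ℝ m (fun q : ℝ × ℝ => s q.1) := hs.comp contDiff_fst
        have h3 : ContDiff ℝ m (fun q : ℝ × ℝ => Real.sin q.2) := Real.contDiff_sin.comp contDiff_snd
        exact contDiff_const.add (contDiff_const.mul ((h3.pow 2).mul h2))
      exact hD.comp_contDiff h1 (fun q => hmem _ (hsq q.2) q.1)
    exact contDiff_int (n := m) (w := fun φ => 2 * Real.sin φ * Real.cos φ)
      (g := fun θ φ => derivWithin F J (a + b * ((Real.sin φ) ^ 2 * s θ))) (by fun_prop)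
      (by positivity) hcomp
  · intro θ
    have hdiff : DifferentiableOn ℝ F J := hF.differentiableOn (by simp)
    have hD : ContDiffOn ℝ m (derivWithin F J) J := hF.derivWithin uJ le_rfl
    have hpath : ∀ φ : ℝ, HasDerivAt (fun φ => a + b * ((Real.sin φ) ^ 2 * s θ))
        (b * (2 * Real.sin φ * Real.cos φ * s θ)) φ := by
      intro φ
      have h1 := (((Real.hasDerivAt_sin φ).pow 2).mul_const (s θ)).const_mul b
      have h2 := h1.const_add a
      refine h2.congr_deriv ?_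
      push_cast
      ring
    have hder : ∀ φ : ℝ, HasDerivAt (fun φ => F (a + b * ((Real.sin φ) ^ 2 * s θ)))
        (derivWithin F J (a + b * ((Real.sin φ) ^ 2 * s θ)) *
          (b * (2 * Real.sin φ * Real.cos φ * s θ))) φ := by
      intro φ
      have hx := hmem _ (hsq φ) θ
      have h1 := (hdiff _ hx).hasDerivWithinAt
      exact h1.comp_hasDerivAt φ (hpath φ) (Eventually.of_forall fun φ' => hmem _ (hsq φ') θ)
    have hcont : Continuous (fun φ => derivWithin F J (a + b * ((Real.sin φ) ^ 2 * s θ)) *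
          (b * (2 * Real.sin φ * Real.cos φ * s θ))) := by
      have h1 : Continuous (fun φ : ℝ => derivWithin F J (a + b * ((Real.sin φ) ^ 2 * s θ))) :=
        hD.continuousOn.comp_continuous (by fun_prop) (fun φ => hmem _ (hsq φ) θ)
      fun_prop
    have hint := intervalIntegral.integral_eq_sub_of_hasDerivAt (a := 0) (b := Real.pi / 2)
      (fun φ _ => hder φ) (hcont.intervalIntegrable _ _)
    simp only [Real.sin_pi_div_two, Real.sin_zero, one_pow, one_mul, ne_eq, OfNat.ofNat_ne_zero,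
      not_false_eq_true, zero_pow, zero_mul, mul_zero, add_zero] at hint
    rw [← hint, ← intervalIntegral.integral_const_mul]
    congr 1
    funext φ
    ring

/-- `f` and `g` are mutually inverse `C^k` diffeomorphisms of `[-1, 1]` -/
structure Inv (k : ℕ∞) (f g : ℝ → ℝ) : Prop where
  hf : ContDiffOn ℝ k f J
  hg : ContDiffOn ℝ k g J
  mf : MapsTo f J J
  mg : MapsTo g J J
  gf : ∀ x ∈ J, g (f x) = x
  fg : ∀ x ∈ J, f (g x) = x

theorem Inv.symm {k : ℕ∞} {f g : ℝ → ℝ} (h : Inv k f g) : Inv k g f :=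
  ⟨h.hg, h.hf, h.mg, h.mf, h.fg, h.gf⟩

theorem Inv.interior {k : ℕ∞} {f g : ℝ → ℝ} (h : Inv k f g) {x : ℝ} (hx : x ∈ Ioo (-1 : ℝ) 1) :
    f x ∈ Ioo (-1 : ℝ) 1 := by
  have hinj : InjOn f J := fun a ha b hb hab => by
    rw [← h.gf a ha, ← h.gf b hb, hab]
  have hxJ : x ∈ J := Ioo_subset_Icc_self hx
  have h1 : (1 : ℝ) ∈ J := ⟨by norm_num, le_rfl⟩
  have hm1 : (-1 : ℝ) ∈ J := ⟨le_rfl, by norm_num⟩
  rcases ContinuousOn.strictMonoOn_of_injOn_Icc' (by norm_num) h.hf.continuousOn hinj with hm | hm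
  · exact ⟨lt_of_le_of_lt (h.mf hm1).1 (hm hm1 hxJ hx.1), lt_of_lt_of_le (hm hxJ h1 hx.2) (h.mf h1).2⟩
  · exact ⟨lt_of_le_of_lt (h.mf h1).1 (hm hxJ h1 hx.2), lt_of_lt_of_le (hm hm1 hxJ hx.1) (h.mf hm1).2⟩

theorem mem_Ioo_iff {x : ℝ} (hx : x ∈ J) : x ∈ Ioo (-1 : ℝ) 1 ↔ x ^ 2 ≠ 1 := by
  constructor
  · rintro ⟨h1, h2⟩ h3
    nlinarith
  · intro h
    refine ⟨lt_of_le_of_ne hx.1 ?_, lt_of_le_of_ne hx.2 ?_⟩
    · rintro rfl
      norm_num at h
    · rintro rfl
      norm_num at h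

theorem Inv.sq_eq_one_iff {k : ℕ∞} {f g : ℝ → ℝ} (h : Inv k f g) {x : ℝ} (hx : x ∈ J) :
    (f x) ^ 2 = 1 ↔ x ^ 2 = 1 := by
  constructor
  · intro h1
    by_contra h2
    exact (mem_Ioo_iff (h.mf hx)).1 (h.interior ((mem_Ioo_iff hx).2 h2)) h1
  · intro h1
    by_contra h2
    have h3 := h.symm.interior ((mem_Ioo_iff (h.mf hx)).2 h2)
    rw [h.gf x hx] at h3
    exact (mem_Ioo_iff hx).1 h3 h1

theorem exists_R (m : ℕ) {f : ℝ → ℝ} (hf : ContDiffOn ℝ (m + 1) f J) (h1 : f 1 ^ 2 = 1)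
    (h2 : f (-1) ^ 2 = 1) :
    ∃ R : ℝ → ℝ, ContDiff ℝ m R ∧
      ∀ θ, 1 - (f (Real.cos θ)) ^ 2 = (Real.sin θ) ^ 2 * R θ := by
  have hF : ContDiffOn ℝ (m + 1) (fun x => 1 - (f x) ^ 2) J := contDiffOn_const.sub (hf.pow 2)
  have hhalf : ContDiff ℝ m (fun θ : ℝ => θ / 2) := contDiff_id.div_const 2
  have hs1 : ContDiff ℝ m (fun θ : ℝ => (Real.sin (θ / 2)) ^ 2) :=
    (Real.contDiff_sin.comp hhalf).pow 2
  have hs2 : ContDiff ℝ m (fun θ : ℝ => (Real.cos (θ / 2)) ^ 2) :=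
    (Real.contDiff_cos.comp hhalf).pow 2
  obtain ⟨G1, hG1, e1⟩ := hadamard m hF 1 (-2) hs1 (by
    intro u hu θ
    have a1 := sq_nonneg (Real.sin (θ / 2))
    have a2 := Real.sin_sq_le_one (θ / 2)
    have a3 : 0 ≤ u * (Real.sin (θ / 2)) ^ 2 := mul_nonneg hu.1 a1
    have a4 : u * (Real.sin (θ / 2)) ^ 2 ≤ 1 := mul_le_one₀ hu.2 a1 a2
    constructor <;> linarith)
  obtain ⟨G2, hG2, e2⟩ := hadamard m hF (-1) 2 hs2 (by
    intro u hu θ
    have a1 := sq_nonneg (Real.cos (θ / 2))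
    have a2 := Real.cos_sq_le_one (θ / 2)
    have a3 : 0 ≤ u * (Real.cos (θ / 2)) ^ 2 := mul_nonneg hu.1 a1
    have a4 : u * (Real.cos (θ / 2)) ^ 2 ≤ 1 := mul_le_one₀ hu.2 a1 a2
    constructor <;> linarith)
  refine ⟨fun θ => (-G1 θ + G2 θ) / 2, (hG1.neg.add hG2).div_const 2, fun θ => ?_⟩
  have hc1 : Real.cos θ = 1 + (-2) * (Real.sin (θ / 2)) ^ 2 := by
    have := Real.cos_two_mul' (θ / 2)
    rw [show 2 * (θ / 2) = θ by ring] at this
    rw [this]
    have h3 := Real.sin_sq_add_cos_sq (θ / 2)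
    linarith
  have hc2 : Real.cos θ = -1 + 2 * (Real.cos (θ / 2)) ^ 2 := by
    have := Real.cos_two_mul (θ / 2)
    rw [show 2 * (θ / 2) = θ by ring] at this
    rw [this]
    ring
  have hsn : Real.sin θ = 2 * Real.sin (θ / 2) * Real.cos (θ / 2) := by
    have := Real.sin_two_mul (θ / 2)
    rw [show 2 * (θ / 2) = θ by ring] at this
    exact this
  have e1' := e1 θ
  have e2' := e2 θ
  rw [← hc1] at e1'
  rw [← hc2] at e2'
  rw [h1] at e1'
  rw [h2] at e2'
  have h3 := Real.sin_sq_add_cos_sq (θ / 2)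
  rw [hsn]
  have e3 : 1 - f (Real.cos θ) ^ 2 = (Real.sin (θ / 2) ^ 2 + Real.cos (θ / 2) ^ 2) *
      (1 - f (Real.cos θ) ^ 2) := by rw [h3, one_mul]
  rw [e3]
  linear_combination (Real.cos (θ / 2) ^ 2) * e1' + (Real.sin (θ / 2) ^ 2) * e2'

theorem cos_mem (θ : ℝ) : Real.cos θ ∈ J := ⟨Real.neg_one_le_cos θ, Real.cos_le_one θ⟩

theorem Inv.ends {k : ℕ∞} {f g : ℝ → ℝ} (h : Inv k f g) : f 1 ^ 2 = 1 ∧ f (-1) ^ 2 = 1 :=
  ⟨(h.sq_eq_one_iff ⟨by norm_num, le_rfl⟩).2 (by norm_num),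
    (h.sq_eq_one_iff ⟨le_rfl, by norm_num⟩).2 (by norm_num)⟩

/-- the set of the `θ` with `sin θ ≠ 0` is dense -/
theorem dense_sin : Dense {θ : ℝ | Real.sin θ ≠ 0} := by
  have h : {θ : ℝ | Real.sin θ ≠ 0} = (range (fun n : ℤ => (n : ℝ) * Real.pi))ᶜ := by
    ext θ
    simp only [mem_ofPred_eq, ne_eq, Real.sin_eq_zero_iff, mem_compl_iff, mem_range]
  rw [h]
  exact (countable_range _).dense_compl ℝ

theorem R_pos {f g R R' : ℝ → ℝ} (h : Inv 0 f g) (hR : Continuous R) (hR' : Continuous R')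
    (e : ∀ θ, 1 - (f (Real.cos θ)) ^ 2 = (Real.sin θ) ^ 2 * R θ)
    (e' : ∀ θ, 1 - (g (Real.cos θ)) ^ 2 = (Real.sin θ) ^ 2 * R' θ) (θ : ℝ) : 0 < R θ := by
  obtain ⟨M, hM⟩ := (isCompact_Icc (a := (0 : ℝ)) (b := Real.pi)).exists_bound_of_continuousOn
    hR'.continuousOn
  have hM0 : 0 < |M| + 1 := by positivity
  have key : ∀ θ, Real.sin θ ≠ 0 → 1 / (|M| + 1) ≤ R θ := by
    intro θ hθ
    have hx := h.mf (cos_mem θ)
    set y := f (Real.cos θ) with hy
    have h1 : Real.cos (Real.arccos y) = y := Real.cos_arccos hx.1 hx.2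
    have h2 := e' (Real.arccos y)
    rw [h1, hy, h.gf _ (cos_mem θ)] at h2
    have h3 : 1 - Real.cos θ ^ 2 = Real.sin θ ^ 2 := by
      have := Real.sin_sq_add_cos_sq θ
      linarith
    have h4 : Real.sin (Real.arccos y) ^ 2 = 1 - y ^ 2 := by
      have := Real.sin_sq_add_cos_sq (Real.arccos y)
      rw [h1] at this
      linarith
    rw [h3, h4, hy, e θ] at h2
    have h5 : Real.sin θ ^ 2 ≠ 0 := pow_ne_zero 2 hθ
    have h6 : 1 = R θ * R' (Real.arccos y) := by
      apply mul_left_cancel₀ h5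
      rw [mul_one]
      linarith
    have h7 : R' (Real.arccos y) ≤ |M| + 1 := by
      have := hM (Real.arccos y) ⟨Real.arccos_nonneg y, Real.arccos_le_pi y⟩
      rw [Real.norm_eq_abs] at this
      have h8 := le_abs_self (R' (Real.arccos y))
      have h9 := le_abs_self M
      linarith
    have h8 : 0 ≤ R θ := by
      have h9 : 0 ≤ 1 - y ^ 2 := by
        have := hx.1
        have := hx.2
        nlinarith
      rw [hy, e θ] at h9
      have h10 : 0 < Real.sin θ ^ 2 := by positivity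
      by_contra hneg
      push Not at hneg
      nlinarith
    rw [div_le_iff₀ hM0]
    calc (1 : ℝ) = R θ * R' (Real.arccos y) := h6
      _ ≤ R θ * (|M| + 1) := mul_le_mul_of_nonneg_left h7 h8
  have hcl : ∀ θ, 1 / (|M| + 1) ≤ R θ := by
    have hclosed : IsClosed {θ : ℝ | 1 / (|M| + 1) ≤ R θ} := isClosed_le continuous_const hR
    have hsub : closure {θ : ℝ | Real.sin θ ≠ 0} ⊆ {θ : ℝ | 1 / (|M| + 1) ≤ R θ} :=
      hclosed.closure_subset_iff.2 (fun θ hθ => key θ hθ)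
    intro θ
    exact hsub (by rw [dense_sin.closure_eq]; trivial)
  exact lt_of_lt_of_le (by positivity) (hcl θ)

/-- the second coordinate of the lift -/
noncomputable def S (f : ℝ → ℝ) (θ : ℝ) : ℝ :=
  Real.sin θ * √((1 - (f (Real.cos θ)) ^ 2) / (1 - (Real.cos θ) ^ 2))

theorem S_contDiff_nat (m : ℕ) {f g : ℝ → ℝ} (h : Inv (m + 1 : ℕ) f g) :
    ContDiff ℝ (m + 1) (S f) := by
  have hf : ContDiffOn ℝ (m + 1) f J := by simpa using h.hf
  have hg : ContDiffOn ℝ (m + 1) g J := by simpa using h.hg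
  obtain ⟨R, hR, e⟩ := exists_R m hf h.ends.1 h.ends.2
  obtain ⟨R', hR', e'⟩ := exists_R m hg h.symm.ends.1 h.symm.ends.2
  have h0 : Inv 0 f g := ⟨h.hf.of_le (by simp), h.hg.of_le (by simp), h.mf, h.mg, h.gf, h.fg⟩
  have hpos := R_pos h0 hR.continuous hR'.continuous e e'
  have hS : S f = fun θ => Real.sin θ * √(R θ) := by
    funext θ
    unfold S
    by_cases hθ : Real.sin θ = 0
    · rw [hθ, zero_mul, zero_mul]
    · congr 2
      have h3 : 1 - Real.cos θ ^ 2 = Real.sin θ ^ 2 := by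
        have := Real.sin_sq_add_cos_sq θ
        linarith
      rw [h3, e θ]
      field_simp
  have hr : ContDiff ℝ m (fun θ => √(R θ)) := hR.sqrt (fun θ => (hpos θ).ne')
  have hD : ContDiff ℝ m (fun θ => f (Real.cos θ) * derivWithin f J (Real.cos θ) / √(R θ)) := by
    refine ContDiff.div ?_ hr (fun θ => (Real.sqrt_pos.2 (hpos θ)).ne')
    refine ContDiff.mul ?_ ?_
    · exact (hf.of_le (by simp)).comp_contDiff Real.contDiff_cos cos_mem
    · exact (hf.derivWithin uJ le_rfl).comp_contDiff Real.contDiff_cos cos_mem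
  have hScont : Continuous (S f) := by
    rw [hS]
    have := hr.continuous
    fun_prop
  have hcosder : ∀ θ, HasDerivAt (fun θ => f (Real.cos θ))
      (derivWithin f J (Real.cos θ) * (-Real.sin θ)) θ := by
    intro θ
    have h1 := ((hf.differentiableOn (by simp)) _ (cos_mem θ)).hasDerivWithinAt
    exact h1.comp_hasDerivAt θ (Real.hasDerivAt_cos θ) (Eventually.of_forall cos_mem)
  -- the derivative where `sin θ ≠ 0`
  have hoff : ∀ θ, Real.sin θ ≠ 0 → HasDerivAt (S f)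
      (f (Real.cos θ) * derivWithin f J (Real.cos θ) / √(R θ)) θ := by
    intro θ hθ
    -- near `θ`, `S = ± √(1 - f(cos)^2)`
    have hne : 1 - f (Real.cos θ) ^ 2 ≠ 0 := by
      rw [e θ]
      exact mul_ne_zero (pow_ne_zero 2 hθ) (hpos θ).ne'
    have h1 : HasDerivAt (fun θ => √(1 - f (Real.cos θ) ^ 2))
        ((-(2 * f (Real.cos θ) * (derivWithin f J (Real.cos θ) * (-Real.sin θ)))) /
          (2 * √(1 - f (Real.cos θ) ^ 2))) θ := by
      have h2 : HasDerivAt (fun θ => 1 - f (Real.cos θ) ^ 2)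
          (-(2 * f (Real.cos θ) * (derivWithin f J (Real.cos θ) * (-Real.sin θ)))) θ := by
        refine (((hcosder θ).pow 2).const_sub 1).congr_deriv ?_
        push_cast
        ring
      exact h2.sqrt hne
    have habs : ∀ θ', √(1 - f (Real.cos θ') ^ 2) = |Real.sin θ'| * √(R θ') := by
      intro θ'
      rw [e θ', Real.sqrt_mul (sq_nonneg _), Real.sqrt_sq_eq_abs]
    rcases lt_or_gt_of_ne hθ with hneg | hp
    · have hev : ∀ᶠ θ' in 𝓝 θ, S f θ' = -√(1 - f (Real.cos θ') ^ 2) := by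
        filter_upwards [Real.continuous_sin.continuousAt.eventually (gt_mem_nhds hneg)] with θ' h'
        rw [habs, hS, abs_of_neg h']
        ring
      refine (h1.neg.congr_of_eventuallyEq hev).congr_deriv ?_
      rw [habs, abs_of_neg hneg]
      have := (Real.sqrt_pos.2 (hpos θ)).ne'
      field_simp
    · have hev : ∀ᶠ θ' in 𝓝 θ, S f θ' = √(1 - f (Real.cos θ') ^ 2) := by
        filter_upwards [Real.continuous_sin.continuousAt.eventually (lt_mem_nhds hp)] with θ' h'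
        rw [habs, hS, abs_of_pos h']
      refine (h1.congr_of_eventuallyEq hev).congr_deriv ?_
      rw [habs, abs_of_pos hp]
      have := (Real.sqrt_pos.2 (hpos θ)).ne'
      field_simp
  have hall : ∀ θ, HasDerivAt (S f)
      (f (Real.cos θ) * derivWithin f J (Real.cos θ) / √(R θ)) θ := by
    intro θ
    by_cases hθ : Real.sin θ = 0
    · -- `sin` does not vanish near `θ`, except at `θ`
      have hcosne : Real.cos θ ≠ 0 := by
        intro hc
        have := Real.sin_sq_add_cos_sq θ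
        rw [hθ, hc] at this
        norm_num at this
      have hU : {θ' | θ' = θ ∨ Real.sin θ' ≠ 0} ∈ 𝓝 θ := by
        have h1 := (Real.hasDerivAt_sin θ).eventually_ne (c := 0) hcosne
        rw [eventually_nhdsWithin_iff] at h1
        filter_upwards [h1] with θ' h'
        by_cases hh : θ' = θ
        · exact Or.inl hh
        · exact Or.inr (h' hh)
      exact hasDerivAt_of_punctured (g := fun θ => f (Real.cos θ) * derivWithin f J (Real.cos θ) / √(R θ))
        hU (fun y hy hne => hoff y (hy.resolve_left hne))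
        hScont.continuousAt hD.continuous.continuousAt
    · exact hoff θ hθ
  rw [contDiff_succ_iff_deriv]
  refine ⟨fun θ => (hall θ).differentiableAt, by simp, ?_⟩
  have : deriv (S f) = fun θ => f (Real.cos θ) * derivWithin f J (Real.cos θ) / √(R θ) := by
    funext θ
    exact (hall θ).deriv
  rw [this]
  exact hD

theorem S_contDiff {k : ℕ∞} (hk : 1 ≤ k) {f g : ℝ → ℝ} (h : Inv k f g) : ContDiff ℝ k (S f) := by
  rw [contDiff_iff_forall_nat_le]
  intro m hm
  rcases Nat.eq_zero_or_pos m with h0 | h0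
  · subst h0
    have h1 : Inv ((0 + 1 : ℕ) : ℕ∞) f g :=
      ⟨h.hf.of_le (by exact_mod_cast hk), h.hg.of_le (by exact_mod_cast hk), h.mf, h.mg, h.gf, h.fg⟩
    exact (S_contDiff_nat 0 h1).of_le (by simp)
  · obtain ⟨n, rfl⟩ := Nat.exists_eq_succ_of_ne_zero h0.ne'
    have h1 : Inv ((n + 1 : ℕ) : ℕ∞) f g :=
      ⟨h.hf.of_le (by exact_mod_cast hm), h.hg.of_le (by exact_mod_cast hm), h.mf, h.mg, h.gf, h.fg⟩
    simpa using S_contDiff_nat n h1

end Pool.Agent.N50.Fold
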