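import Pool.Agent.N964.GX.Stm
import Pool.Agent.N964.MX.K5

/-!
# GX/D: the numerical bound for degree `k` (written by helper50)
-/

set_option autoImplicit false

namespace Pool.Agent.N50.GX

open Filter Topology
open Pool.Agent.N964.GX (Xk S_termk)
open Pool.Agent.N964.MX (kq thirteen)

/-- a power is smaller than an exponential -/
theorem pow_small (A : ℝ) (n : ℕ) {c : ℝ} (hc : 0 < c) :
    ∀ᶠ m : ℝ in atTop, A * m ^ n ≤ Real.exp (c * m) := by
  have h1 := Real.tendsto_exp_div_pow_atTop n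
  have h2 : Tendsto (fun m : ℝ => c * m) atTop atTop := tendsto_id.const_mul_atTop hc
  have h3 := h1.comp h2
  filter_upwards [h3.eventually_ge_atTop (A / c ^ n), eventually_gt_atTop 0] with m hm hm0
  have hm' : A / c ^ n ≤ Real.exp (c * m) / (c * m) ^ n := hm
  have hp : 0 < (c * m) ^ n := by positivity
  rw [div_le_div_iff₀ (by positivity) hp, mul_pow] at hm'
  have hcn : 0 < c ^ n := by positivity
  have : (A * m ^ n) * c ^ n ≤ Real.exp (c * m) * c ^ n := by linarith
  exact le_of_mul_le_mul_right this hcn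

theorem termk : S_termk := by
  intro k B hk hB
  have hB0 : 0 < B := by linarith
  have hev := (pow_small 1 (k + 2) (show (0 : ℝ) < 1 / 2 by norm_num)).and
    ((pow_small B 3 (show (0 : ℝ) < 1 / 4 by norm_num)).and (eventually_ge_atTop (4 : ℝ)))
  obtain ⟨m0, hm0⟩ := eventually_atTop.1 hev
  obtain ⟨M, hM⟩ : ∃ M : ℝ, M = max m0 4 := ⟨_, rfl⟩
  have hM4 : 4 ≤ M := by rw [hM]; exact le_max_right _ _
  have hMm : m0 ≤ M := by rw [hM]; exact le_max_left _ _
  have hk' : (1 : ℝ) ≤ k := by exact_mod_cast hk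
  refine ⟨6 + 4 * k + 8000 * Real.exp 5 * 5 ^ k * B, Real.exp (-M), by positivity,
    Real.exp_pos _, ?_, ?_⟩
  · rw [Real.exp_neg, one_div]
    refine inv_anti₀ (by norm_num) ?_
    have := Real.add_one_le_exp M
    linarith
  intro δ τ V i hδ hδ0 hτe hτ3 hV1 hV2 hi
  obtain ⟨m, hm⟩ : ∃ m : ℝ, m = Real.log (1 / δ) := ⟨_, rfl⟩
  rw [← hm] at hV1 hi ⊢
  have hXk : Xk k δ = 1 / (δ ^ k * m ^ (k + 1)) := by rw [hm]; rfl
  have hmexp : Real.exp m = 1 / δ := by rw [hm, Real.exp_log (by positivity)]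
  have hMm' : M ≤ m := by
    rw [hm, Real.le_log_iff_exp_le (by positivity), le_div_iff₀ hδ]
    calc Real.exp M * δ ≤ Real.exp M * Real.exp (-M) :=
          mul_le_mul_of_nonneg_left hδ0 (Real.exp_pos _).le
      _ = 1 := by rw [← Real.exp_add]; simp
  obtain ⟨f1, f2, f3⟩ := hm0 m (hMm.trans hMm')
  rw [one_mul] at f1
  have hm4 : 4 ≤ m := hM4.trans hMm'
  have hmp : 0 < m := by linarith
  have he2 : (7 : ℝ) ≤ Real.exp 2 := by
    have h1 : Real.exp 2 = Real.exp 1 * Real.exp 1 := by rw [← Real.exp_add]; norm_num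
    have := Real.exp_one_gt_d9
    rw [h1]
    nlinarith
  have hτ0 : 0 < τ := by linarith
  have hlτ2 : 2 ≤ Real.log τ := by rw [Real.le_log_iff_exp_le hτ0]; exact hτe
  have hlτ0 : 0 < Real.log τ := by linarith
  have hδk : 1 / δ ^ k = Real.exp (k * m) := by
    rw [Real.exp_nat_mul, hmexp, one_div_pow]
  obtain ⟨v, hv⟩ : ∃ v : ℝ, v = (V : ℝ) := ⟨_, rfl⟩
  rw [← hv] at hV1 hV2 ⊢
  have hve : Real.exp (m / 2) ≤ v := by
    refine le_trans ?_ hV1
    have h1 : 1 / (δ ^ k * m ^ (k + 2)) = Real.exp (k * m) / m ^ (k + 2) := by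
      rw [← hδk]; field_simp
    rw [h1, le_div_iff₀ (by positivity)]
    calc Real.exp (m / 2) * m ^ (k + 2) ≤ Real.exp (m / 2) * Real.exp (1 / 2 * m) :=
          mul_le_mul_of_nonneg_left f1 (Real.exp_pos _).le
      _ = Real.exp m := by rw [← Real.exp_add]; congr 1; ring
      _ ≤ Real.exp (k * m) := Real.exp_le_exp.2 (by nlinarith)
  have hv0 : 0 < v := (Real.exp_pos _).trans_le hve
  have hv1 : 1 ≤ v := le_trans (Real.one_le_exp (by positivity)) hve
  have hlv : m / 2 ≤ Real.log v := by rw [Real.le_log_iff_exp_le hv0]; exact hve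
  have hvτ : v * 2 ≤ τ := by
    rw [le_div_iff₀ hlτ0] at hV2
    nlinarith
  have hvτ' : v ≤ τ := by linarith
  have hlτ : m / 2 ≤ Real.log τ := hlv.trans (Real.log_le_log hv0 hvτ')
  have hτ3e : τ ≤ Real.exp ((k + 2) * m) := by
    refine hτ3.trans (le_of_eq ?_)
    have h1 : Real.exp ((k + 2) * m) = Real.exp m ^ (k + 2) := by
      rw [← Real.exp_nat_mul]; push_cast; ring_nf
    rw [h1, hmexp, one_div_pow]
  obtain ⟨X, hX⟩ : ∃ X : ℝ, X = 1 / (δ ^ k * m ^ (k + 1)) := ⟨_, rfl⟩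
  rw [hXk, ← hX]
  have hX0 : 0 < X := by rw [hX]; positivity
  have hXe : X = Real.exp (k * m) / m ^ (k + 1) := by rw [hX, ← hδk]; field_simp
  have hmX : m ≤ X := by
    rw [hXe, le_div_iff₀ (by positivity)]
    calc m * m ^ (k + 1) = m ^ (k + 2) := by ring
      _ ≤ Real.exp (1 / 2 * m) := f1
      _ ≤ Real.exp (k * m) := Real.exp_le_exp.2 (by nlinarith)
  obtain ⟨g, hg⟩ : ∃ g : ℝ, g = ((2 : ℝ) ^ i - 1) / m := ⟨_, rfl⟩
  have h2i1 : (1 : ℝ) ≤ 2 ^ i := one_le_pow₀ (by norm_num)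
  have hg0 : 0 ≤ g := by rw [hg]; exact div_nonneg (by linarith) hmp.le
  obtain ⟨q, hq⟩ : ∃ q : ℝ, q = B * 13 ^ i / (m * v) := ⟨_, rfl⟩
  have hq0 : 0 < q := by rw [hq]; positivity
  obtain ⟨y, hy⟩ : ∃ y : ℝ, y = (v + 1) / (τ * δ) := ⟨_, rfl⟩
  have hy0 : 0 < y := by rw [hy]; positivity
  rw [← hy, ← hq]
  have hkq : kq m V i = V + ⌊v * g⌋₊ := by rw [hv, hg]; rfl
  rw [hkq]
  -- `q` is small
  have h2i : (2 : ℝ) ^ i ≤ m := by linarith
  have h13 : (13 : ℝ) ^ i ≤ m ^ 4 := by
    calc (13 : ℝ) ^ i ≤ 16 ^ i := pow_le_pow_left₀ (by norm_num) (by norm_num) i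
      _ = (2 ^ i) ^ 4 := by rw [← pow_mul, mul_comm, pow_mul]; norm_num
      _ ≤ m ^ 4 := pow_le_pow_left₀ (by positivity) h2i 4
  have hqs : q ≤ Real.exp (-(Real.log v / 2)) := by
    have h1 : Real.exp (Real.log v / 2) * Real.exp (Real.log v / 2) = v := by
      rw [← Real.exp_add]
      have : Real.log v / 2 + Real.log v / 2 = Real.log v := by ring
      rw [this, Real.exp_log hv0]
    have h2 : Real.exp (1 / 4 * m) ≤ Real.exp (Real.log v / 2) := Real.exp_le_exp.2 (by linarith)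
    have h3 : B * m ^ 3 ≤ Real.exp (Real.log v / 2) := f2.trans h2
    rw [Real.exp_neg, hq, div_le_iff₀ (by positivity)]
    have h4 : (Real.exp (Real.log v / 2))⁻¹ * (m * v) = m * Real.exp (Real.log v / 2) := by
      nth_rewrite 2 [← h1]
      field_simp
    rw [h4]
    calc B * 13 ^ i ≤ B * m ^ 4 := mul_le_mul_of_nonneg_left h13 hB0.le
      _ = m * (B * m ^ 3) := by ring
      _ ≤ _ := mul_le_mul_of_nonneg_left h3 hmp.le
  -- the extra power
  have hextra : q ^ ⌊v * g⌋₊ ≤ Real.exp (Real.log v / 2 - v * ((2 ^ i - 1) / 4)) := by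
    have h1 : q ^ ⌊v * g⌋₊ ≤ Real.exp (-(Real.log v / 2)) ^ ⌊v * g⌋₊ :=
      pow_le_pow_left₀ hq0.le hqs _
    refine h1.trans ?_
    rw [← Real.exp_nat_mul, Real.exp_le_exp]
    have h2 : v * g - 1 < (⌊v * g⌋₊ : ℝ) := Nat.sub_one_lt_floor _
    have h3 : 0 ≤ Real.log v / 2 := by linarith
    have h4 : (v * g - 1) * (Real.log v / 2) ≤ (⌊v * g⌋₊ : ℝ) * (Real.log v / 2) :=
      mul_le_mul_of_nonneg_right h2.le h3
    have h5 : v * ((2 ^ i - 1) / 4) ≤ v * g * (Real.log v / 2) := by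
      have h6 : ((2 : ℝ) ^ i - 1) / 4 ≤ g * (Real.log v / 2) := by
        have h7 : ((2 : ℝ) ^ i - 1) / 4 = g * (m / 4) := by rw [hg]; field_simp
        rw [h7]
        refine mul_le_mul_of_nonneg_left ?_ hg0
        linarith
      calc v * ((2 ^ i - 1) / 4) ≤ v * (g * (Real.log v / 2)) :=
            mul_le_mul_of_nonneg_left h6 hv0.le
        _ = _ := by ring
    nlinarith
  -- `1 + y`
  obtain ⟨Z, hZ⟩ : ∃ Z : ℝ, Z = 5 / (δ * m) := ⟨_, rfl⟩
  have hZ0 : 0 < Z := by rw [hZ]; positivity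
  have hyZ : 1 + y ≤ Z := by
    have h1 : y ≤ 4 / (δ * m) := by
      have h2 : v * Real.log τ ≤ τ := by rwa [le_div_iff₀ hlτ0] at hV2
      rw [hy, div_le_div_iff₀ (by positivity) (by positivity)]
      have h3 : v * (m / 2) ≤ τ := (mul_le_mul_of_nonneg_left hlτ hv0.le).trans h2
      have h4 : (v + 1) * m ≤ 4 * τ := by nlinarith
      nlinarith
    have h5 : 1 ≤ 1 / (δ * m) := by
      rw [le_div_iff₀ (by positivity), one_mul]
      have h6 : δ * Real.exp m = 1 := by rw [hmexp]; field_simp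
      have h7 := Real.add_one_le_exp m
      nlinarith
    have h8 : Z = 1 / (δ * m) + 4 / (δ * m) := by rw [hZ]; ring
    linarith
  have hE0 : 0 < Real.exp 5 := Real.exp_pos 5
  have e1 : Real.exp (k * (v + 1) * Real.log (1 + y) + 5 * (v + 1)) ≤
      (Real.exp 5 * Z ^ k) ^ (V + 1) := by
    have h2 : Real.exp (k * (v + 1) * Real.log (1 + y) + 5 * (v + 1)) =
        (Real.exp 5 * (1 + y) ^ k) ^ (V + 1) := by
      have h3 : Real.exp 5 * (1 + y) ^ k = Real.exp (k * Real.log (1 + y) + 5) := by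
        rw [Real.exp_add, Real.exp_nat_mul, Real.exp_log (by linarith)]; ring
      rw [h3, ← Real.exp_nat_mul]
      congr 1
      push_cast
      rw [← hv]; ring
    rw [h2]
    refine pow_le_pow_left₀ (by positivity) ?_ _
    exact mul_le_mul_of_nonneg_left (pow_le_pow_left₀ (by linarith) hyZ k) hE0.le
  obtain ⟨Y, hY⟩ : ∃ Y : ℝ, Y = 8000 * Real.exp 5 * 5 ^ k * B * X := ⟨_, rfl⟩
  have hY0 : 0 < Y := by rw [hY]; positivity
  have hmain : Real.exp (k * (v + 1) * Real.log (1 + y) + 5 * (v + 1)) * q ^ (V + ⌊v * g⌋₊) ≤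
      Real.exp 5 * Z ^ k * Real.exp (Real.log v / 2) * (Y / v) ^ V := by
    have e2 : Real.exp (Real.log v / 2 - v * ((2 ^ i - 1) / 4)) =
        Real.exp (Real.log v / 2) * (Real.exp (-(((2 : ℝ) ^ i - 1) / 4))) ^ V := by
      rw [← Real.exp_nat_mul, ← Real.exp_add]
      congr 1
      rw [← hv]; ring
    rw [pow_add q]
    calc Real.exp (k * (v + 1) * Real.log (1 + y) + 5 * (v + 1)) * (q ^ V * q ^ ⌊v * g⌋₊)
        ≤ (Real.exp 5 * Z ^ k) ^ (V + 1) * (q ^ V *
          (Real.exp (Real.log v / 2) * (Real.exp (-(((2 : ℝ) ^ i - 1) / 4))) ^ V)) := by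
          rw [← e2]
          exact mul_le_mul e1 (mul_le_mul_of_nonneg_left hextra (by positivity)) (by positivity)
            (by positivity)
      _ = Real.exp 5 * Z ^ k * Real.exp (Real.log v / 2) *
          (Real.exp 5 * Z ^ k * (q * Real.exp (-(((2 : ℝ) ^ i - 1) / 4)))) ^ V := by
          rw [mul_pow (Real.exp 5 * Z ^ k) (q * _), mul_pow q, pow_succ]; ring
      _ ≤ _ := by
          refine mul_le_mul_of_nonneg_left ?_ (by positivity)
          refine pow_le_pow_left₀ (by positivity) ?_ V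
          have h1 := thirteen i
          have h2 : q * Real.exp (-(((2 : ℝ) ^ i - 1) / 4)) ≤ B * 8000 / (m * v) := by
            rw [hq, div_mul_eq_mul_div, mul_assoc]
            apply div_le_div_of_nonneg_right _ (by positivity)
            exact mul_le_mul_of_nonneg_left h1 hB0.le
          calc Real.exp 5 * Z ^ k * (q * Real.exp (-(((2 : ℝ) ^ i - 1) / 4)))
              ≤ Real.exp 5 * Z ^ k * (B * 8000 / (m * v)) :=
                mul_le_mul_of_nonneg_left h2 (by positivity)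
            _ = Y / v := by
                rw [hY, hX, hZ, div_pow, mul_pow, pow_succ m k]
                field_simp
  refine hmain.trans ?_
  have hpow : (Y / v) ^ V ≤ Real.exp Y := by
    have h1 : Y / v ≤ Real.exp (Y / v) := by
      have := Real.add_one_le_exp (Y / v)
      linarith
    calc (Y / v) ^ V ≤ (Real.exp (Y / v)) ^ V := pow_le_pow_left₀ (by positivity) h1 V
      _ = Real.exp Y := by
          rw [← Real.exp_nat_mul, ← hv]
          congr 1
          field_simp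
  have hfront : Real.exp 5 * Z ^ k * Real.exp (Real.log v / 2) ≤
      Real.exp ((6 + 4 * k) * X) := by
    have h1 : Z ≤ Real.exp (2 + m) := by
      rw [Real.exp_add, hmexp, hZ]
      have h2 : 5 / (δ * m) = 5 / m * (1 / δ) := by field_simp
      rw [h2]
      apply mul_le_mul_of_nonneg_right _ (by positivity)
      rw [div_le_iff₀ hmp]
      nlinarith
    have h3 : Z ^ k ≤ Real.exp (k * (2 + m)) := by
      rw [Real.exp_nat_mul]
      exact pow_le_pow_left₀ hZ0.le h1 k
    have h4 : Real.exp (Real.log v / 2) ≤ Real.exp ((k + 2) * m / 2) := by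
      rw [Real.exp_le_exp]
      have h5 : Real.log v ≤ (k + 2) * m := by
        rw [Real.log_le_iff_le_exp hv0]; linarith
      linarith
    calc Real.exp 5 * Z ^ k * Real.exp (Real.log v / 2)
        ≤ Real.exp 5 * Real.exp (k * (2 + m)) * Real.exp ((k + 2) * m / 2) := by
          apply mul_le_mul _ h4 (by positivity) (by positivity)
          exact mul_le_mul_of_nonneg_left h3 hE0.le
      _ = Real.exp (5 + k * (2 + m) + (k + 2) * m / 2) := by
          rw [← Real.exp_add, ← Real.exp_add]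
      _ ≤ _ := by
          rw [Real.exp_le_exp]
          have h6 : (6 + 4 * (k : ℝ)) * m ≤ (6 + 4 * k) * X :=
            mul_le_mul_of_nonneg_left hmX (by positivity)
          have h7 : (k : ℝ) * 4 ≤ k * m := mul_le_mul_of_nonneg_left hm4 (by positivity)
          nlinarith
  calc Real.exp 5 * Z ^ k * Real.exp (Real.log v / 2) * (Y / v) ^ V
      ≤ Real.exp ((6 + 4 * k) * X) * Real.exp Y :=
        mul_le_mul hfront hpow (by positivity) (by positivity)
    _ = _ := by rw [← Real.exp_add, hY]; congr 1; ring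

end Pool.Agent.N50.GX
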