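import Pool.Agent.N50.Fold
import Pool.Agent.N50.CircleHalf

/-! Every group of `C^k` diffeomorphisms of the interval acts by `C^k` diffeomorphisms on the
circle. -/

set_option autoImplicit false

open Set Filter Topology Function
open scoped Manifold ContDiff
open Pool.Agent.N50.Fold Pool.Agent.N50.CircleHalf

namespace Pool.Agent.N50.Lift


instance factK : Fact ((-1 : ℝ) < 1) := ⟨by norm_num⟩

/-- the interval -/
abbrev K : Type := Icc (-1 : ℝ) 1

instance : ConnectedSpace K := Subtype.connectedSpace (isConnected_Icc factK.out.le)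

section

variable {G : Type*} [Group G] (ρ : G →* Equiv.Perm K)

/-- the map of the line belonging to `g` -/
noncomputable def F (g : G) (x : ℝ) : ℝ := (ρ g (projIcc (-1) 1 factK.out.le x) : ℝ)

theorem F_mem (g : G) (x : ℝ) : F ρ g x ∈ J := (ρ g (projIcc (-1) 1 factK.out.le x)).2

theorem F_coe (g : G) (x : K) : F ρ g (x : ℝ) = (ρ g x : ℝ) := by
  unfold F
  rw [projIcc_val]

theorem F_one {x : ℝ} (hx : x ∈ J) : F ρ 1 x = x := by
  have := F_coe ρ 1 ⟨x, hx⟩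
  rw [this]
  simp

theorem F_mul (g h : G) (x : ℝ) : F ρ (g * h) x = F ρ g (F ρ h x) := by
  have h1 : F ρ g (F ρ h x) = (ρ g (ρ h (projIcc (-1) 1 factK.out.le x)) : ℝ) :=
    F_coe ρ g (ρ h (projIcc (-1) 1 factK.out.le x))
  rw [h1]
  unfold F
  rw [map_mul]
  rfl

theorem F_contDiffOn {k : ℕ∞} (hρ : ∀ g, ContMDiff (𝓡∂ 1) (𝓡∂ 1) k (ρ g)) (g : G) :
    ContDiffOn ℝ k (F ρ g) J := by
  rw [← contMDiffOn_iff_contDiffOn]
  have h1 : ContMDiff (𝓡∂ 1) 𝓘(ℝ) k (fun z : K => (z : ℝ)) := contMDiff_subtypeVal_Icc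
  have h2 : ContMDiffOn 𝓘(ℝ) (𝓡∂ 1) k (projIcc (-1 : ℝ) 1 factK.out.le) J := contMDiffOn_projIcc
  exact (h1.comp (hρ g)).comp_contMDiffOn h2

theorem inv {k : ℕ∞} (hρ : ∀ g, ContMDiff (𝓡∂ 1) (𝓡∂ 1) k (ρ g)) (g : G) :
    Inv k (F ρ g) (F ρ g⁻¹) where
  hf := F_contDiffOn ρ hρ g
  hg := F_contDiffOn ρ hρ g⁻¹
  mf := fun x _ => F_mem ρ g x
  mg := fun x _ => F_mem ρ g⁻¹ x
  gf := fun x hx => by rw [← F_mul, inv_mul_cancel, F_one ρ hx]
  fg := fun x hx => by rw [← F_mul, mul_inv_cancel, F_one ρ hx]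

/-- the lift to the circle, as a complex number -/
noncomputable def Lc (g : G) (z : ℂ) : ℂ :=
  ⟨F ρ g z.re, z.im * √((1 - (F ρ g z.re) ^ 2) / (1 - z.re ^ 2))⟩

theorem re_mem (z : Circle) : (z : ℂ).re ∈ J := by
  have h := Complex.abs_re_le_norm (z : ℂ)
  rw [Circle.norm_coe] at h
  exact abs_le.1 h

theorem sq_add_sq (z : Circle) : (z : ℂ).re ^ 2 + (z : ℂ).im ^ 2 = 1 := by
  have h := Circle.normSq_coe z
  rw [Complex.normSq_apply] at h
  linarith

theorem Lc_normSq {k : ℕ∞} (hρ : ∀ g, ContMDiff (𝓡∂ 1) (𝓡∂ 1) k (ρ g)) (g : G)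
    (z : Circle) : Complex.normSq (Lc ρ g z) = 1 := by
  have hI := inv ρ hρ g
  have hz := sq_add_sq z
  have hr := re_mem z
  rw [Complex.normSq_apply]
  unfold Lc
  by_cases hx : (z : ℂ).re ^ 2 = 1
  · have h1 := (hI.sq_eq_one_iff hr).2 hx
    have h2 : (z : ℂ).im = 0 := by
      have : (z : ℂ).im ^ 2 = 0 := by linarith
      exact pow_eq_zero_iff (two_ne_zero) |>.1 this
    simp only [h2, zero_mul, add_zero]
    linarith
  · have h1 : 0 < 1 - (z : ℂ).re ^ 2 := by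
      have h3 : (z : ℂ).re ^ 2 ≤ 1 := by nlinarith [sq_nonneg ((z : ℂ).im)]
      have := lt_of_le_of_ne h3 hx
      linarith
    have h2 : 0 ≤ 1 - F ρ g (z : ℂ).re ^ 2 := by
      have h3 := F_mem ρ g (z : ℂ).re
      have h4 := h3.1
      have h5 := h3.2
      nlinarith
    have h3 : √((1 - F ρ g (z : ℂ).re ^ 2) / (1 - (z : ℂ).re ^ 2)) ^ 2 =
        (1 - F ρ g (z : ℂ).re ^ 2) / (1 - (z : ℂ).re ^ 2) := Real.sq_sqrt (by positivity)
    have h4 : (z : ℂ).im ^ 2 = 1 - (z : ℂ).re ^ 2 := by linarith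
    calc F ρ g (z : ℂ).re * F ρ g (z : ℂ).re +
        (z : ℂ).im * √((1 - F ρ g (z : ℂ).re ^ 2) / (1 - (z : ℂ).re ^ 2)) *
        ((z : ℂ).im * √((1 - F ρ g (z : ℂ).re ^ 2) / (1 - (z : ℂ).re ^ 2)))
        = F ρ g (z : ℂ).re ^ 2 + (z : ℂ).im ^ 2 *
          √((1 - F ρ g (z : ℂ).re ^ 2) / (1 - (z : ℂ).re ^ 2)) ^ 2 := by ring
      _ = 1 := by
        rw [h3, h4]
        field_simp
        ring

theorem Lc_mul {k : ℕ∞} (hρ : ∀ g, ContMDiff (𝓡∂ 1) (𝓡∂ 1) k (ρ g)) (g h : G)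
    (z : Circle) : Lc ρ (g * h) z = Lc ρ g (Lc ρ h z) := by
  have hI := inv ρ hρ h
  have hz := sq_add_sq z
  have hr := re_mem z
  apply Complex.ext
  · exact F_mul ρ g h _
  · show (z : ℂ).im * √((1 - (F ρ (g * h) (z : ℂ).re) ^ 2) / (1 - (z : ℂ).re ^ 2)) =
      (z : ℂ).im * √((1 - (F ρ h (z : ℂ).re) ^ 2) / (1 - (z : ℂ).re ^ 2)) *
        √((1 - (F ρ g (F ρ h (z : ℂ).re)) ^ 2) / (1 - (F ρ h (z : ℂ).re) ^ 2))
    rw [F_mul]
    by_cases hx : (z : ℂ).re ^ 2 = 1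
    · have h2 : (z : ℂ).im = 0 := by
        have : (z : ℂ).im ^ 2 = 0 := by linarith
        exact pow_eq_zero_iff (two_ne_zero) |>.1 this
      rw [h2]
      simp
    · have h1 : 0 < 1 - (z : ℂ).re ^ 2 := by
        have h3 : (z : ℂ).re ^ 2 ≤ 1 := by nlinarith [sq_nonneg ((z : ℂ).im)]
        have := lt_of_le_of_ne h3 hx
        linarith
      have h2 : 0 < 1 - F ρ h (z : ℂ).re ^ 2 := by
        have h3 := F_mem ρ h (z : ℂ).re
        have h4 := h3.1
        have h5 := h3.2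
        have h6 : F ρ h (z : ℂ).re ^ 2 ≠ 1 := fun hh => hx ((hI.sq_eq_one_iff hr).1 hh)
        have h7 : F ρ h (z : ℂ).re ^ 2 ≤ 1 := by nlinarith
        have := lt_of_le_of_ne h7 h6
        linarith
      rw [mul_assoc, ← Real.sqrt_mul (by positivity)]
      congr 2
      field_simp

theorem Lc_one (z : Circle) : Lc ρ 1 z = z := by
  have hz := sq_add_sq z
  have hr := re_mem z
  apply Complex.ext
  · exact F_one ρ hr
  · show (z : ℂ).im * √((1 - (F ρ 1 (z : ℂ).re) ^ 2) / (1 - (z : ℂ).re ^ 2)) = (z : ℂ).im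
    rw [F_one ρ hr]
    by_cases hx : (z : ℂ).re ^ 2 = 1
    · have h2 : (z : ℂ).im = 0 := by
        have : (z : ℂ).im ^ 2 = 0 := by linarith
        exact pow_eq_zero_iff (two_ne_zero) |>.1 this
      rw [h2]
      simp
    · have h1 : 1 - (z : ℂ).re ^ 2 ≠ 0 := fun hh => hx (by linarith)
      rw [div_self h1]
      simp

/-- the lift to the circle -/
noncomputable def L {k : ℕ∞} (hρ : ∀ g, ContMDiff (𝓡∂ 1) (𝓡∂ 1) k (ρ g)) (g : G) (z : Circle) : Circle :=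
  ⟨Lc ρ g z, by
    refine mem_sphere_zero_iff_norm.2 ?_
    have h := Lc_normSq ρ hρ g z
    rw [Complex.normSq_eq_norm_sq] at h
    exact (pow_eq_one_iff_of_nonneg (norm_nonneg _) two_ne_zero).1 h⟩

theorem L_exp {k : ℕ∞} (hρ : ∀ g, ContMDiff (𝓡∂ 1) (𝓡∂ 1) k (ρ g)) (g : G) (θ : ℝ) :
    ((L ρ hρ g (Circle.exp θ) : Circle) : ℂ) =
      ((F ρ g (Real.cos θ) : ℝ) : ℂ) + ((S (F ρ g) θ : ℝ) : ℂ) * Complex.I := by
  have h1 : ((Circle.exp θ : Circle) : ℂ).re = Real.cos θ := by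
    rw [Circle.coe_exp, Complex.exp_ofReal_mul_I_re]
  have h2 : ((Circle.exp θ : Circle) : ℂ).im = Real.sin θ := by
    rw [Circle.coe_exp, Complex.exp_ofReal_mul_I_im]
  show Lc ρ g ((Circle.exp θ : Circle) : ℂ) = _
  unfold Lc S
  rw [h1, h2]
  apply Complex.ext
  · simp
  · simp only [Complex.add_im, Complex.ofReal_im, Complex.mul_im, Complex.ofReal_re,
      Complex.I_im, mul_one, Complex.I_re, mul_zero, add_zero, zero_add]

theorem L_contMDiff {k : ℕ∞} (hk : 1 ≤ k) (hρ : ∀ g, ContMDiff (𝓡∂ 1) (𝓡∂ 1) k (ρ g)) (g : G) :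
    ContMDiff (𝓡∂ 1) (𝓡∂ 1) k (L ρ hρ g) := by
  apply contMDiff_of_exp
  simp only [L_exp]
  have hI := inv ρ hρ g
  have h1 : ContDiff ℝ k (fun θ : ℝ => F ρ g (Real.cos θ)) :=
    hI.hf.comp_contDiff Real.contDiff_cos cos_mem
  have h2 : ContDiff ℝ k (S (F ρ g)) := S_contDiff hk hI
  exact (Complex.ofRealCLM.contDiff.comp h1).add
    ((Complex.ofRealCLM.contDiff.comp h2).mul contDiff_const)

/-- the action on the circle -/
noncomputable def lift {k : ℕ∞} (hρ : ∀ g, ContMDiff (𝓡∂ 1) (𝓡∂ 1) k (ρ g)) : G →* Equiv.Perm Circle :=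
  MonoidHom.toHomPerm
    { toFun := fun g => (L ρ hρ g : Function.End Circle)
      map_one' := by
        funext z
        exact Subtype.ext (Lc_one ρ z)
      map_mul' := by
        intro g h
        funext z
        exact Subtype.ext (Lc_mul ρ hρ g h z) }

theorem lift_apply {k : ℕ∞} (hρ : ∀ g, ContMDiff (𝓡∂ 1) (𝓡∂ 1) k (ρ g)) (g : G) (z : Circle) :
    lift ρ hρ g z = L ρ hρ g z := rfl

theorem lift_injective {k : ℕ∞} (hρ : ∀ g, ContMDiff (𝓡∂ 1) (𝓡∂ 1) k (ρ g)) (hi : Injective ρ) :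
    Injective (lift ρ hρ) := by
  rw [injective_iff_map_eq_one]
  intro g hg
  rw [injective_iff_map_eq_one] at hi
  apply hi
  ext x
  have h1 : L ρ hρ g (Circle.exp (Real.arccos x)) = Circle.exp (Real.arccos x) := by
    rw [← lift_apply, hg]
    rfl
  have h2 := congrArg (fun z : Circle => (z : ℂ).re) h1
  simp only [L_exp] at h2
  rw [Circle.coe_exp, Complex.exp_ofReal_mul_I_re, Real.cos_arccos x.2.1 x.2.2] at h2
  simp only [Complex.add_re, Complex.ofReal_re, Complex.mul_re, Complex.I_re, mul_zero,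
    Complex.ofReal_im, Complex.I_im, mul_one, sub_self, add_zero] at h2
  rw [F_coe] at h2
  exact h2

end

/-- **Lifting theorem.** -/
theorem exists_lift {k : ℕ∞} (hk : 1 ≤ k) {G : Type*} [Group G] (ρ : G →* Equiv.Perm K)
    (hi : Injective ρ) (hρ : ∀ g, ContMDiff (𝓡∂ 1) (𝓡∂ 1) k (ρ g)) :
    ∃ ρ' : G →* Equiv.Perm Circle, Injective ρ' ∧ ∀ g, ContMDiff (𝓡∂ 1) (𝓡∂ 1) k (ρ' g) :=
  ⟨lift ρ hρ, lift_injective ρ hρ hi, fun g => L_contMDiff ρ hk hρ g⟩

/-- The interval is not homeomorphic to the circle. -/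
theorem not_homeo (h : K ≃ₜ Circle) : False := by
  let c : Circle := Circle.exp Real.pi
  have hc : c ≠ 1 := Circle.exp_pi_ne_one
  let f : ℝ → ℝ := fun x => (h.symm (c * h (projIcc (-1) 1 factK.out.le x)) : ℝ)
  have hf : Continuous f := by
    have h1 : Continuous (fun x : ℝ => c * h (projIcc (-1) 1 factK.out.le x)) :=
      continuous_const.mul (h.continuous.comp continuous_projIcc)
    exact continuous_subtype_val.comp (h.symm.continuous.comp h1)
  obtain ⟨x, hx, hfx⟩ := exists_mem_Icc_isFixedPt_of_mapsTo (hf.continuousOn (s := Icc (-1) 1))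
    factK.out.le (fun x _ => (h.symm (c * h (projIcc (-1) 1 factK.out.le x))).2)
  have h2 : h.symm (c * h ⟨x, hx⟩) = ⟨x, hx⟩ := by
    apply Subtype.ext
    have h3 : f x = x := hfx
    simp only [f] at h3
    rw [projIcc_of_mem factK.out.le hx] at h3
    exact h3
  rw [Homeomorph.symm_apply_eq] at h2
  exact hc (mul_eq_right.1 h2)

end Pool.Agent.N50.Lift
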